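import Pool.Agent.R639.CT.Main

/-!
# The preimage of the non-conical points has Hausdorff dimension zero (free-by-cyclic groups)

Definitions: `Pool.Agent.H322R3.HypDefs` (word-hyperbolic groups, Gromov boundary) and
`Pool.Agent.R639.CT.Defs` (Cannon-Thurston maps, conical points, trees, visual metrics).

Idea of the proof. Let `p` be a boundary point of the free group `F`, `g k` the initial segment of
length `k` of `p` and `z` the image of `p`. If the length of `g k` in `G` is at least `ε k` for all
large `k` then, by a chain argument with Gromov products, the points `g k` come infinitely often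
within a bounded distance of the geodesic rays to `z`, so `z` is conical. Hence if `z` is not
conical then for each `ε` there are arbitrarily large `k` with `|g k|_G ≤ ε k`. As balls of `G`
grow at most exponentially, the set of such `p` has Hausdorff dimension zero.
-/

set_option autoImplicit false

namespace Pool.Agent.Results.MP_eb6270_al.NonConicalPreimageDimZero

open Pool.Agent.H322R3.Hyp Pool.Agent.R639.CT

/-- Let `φ` be an automorphism of the free group `F` of rank `r` such that the group
`G = F ⋊_φ ℤ` is word-hyperbolic (which holds if `φ` is atoroidal), `S` a finite generating set of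
`G` and `f : ∂F → ∂G` the Cannon-Thurston map of the inclusion `F → G`. Let `X` be an `ℝ`-tree with
a geometric action of `F` (for example a point of outer space), `x₀ ∈ X`, `a > 1` and `m` a visual
metric on `∂F` with respect to `X`, `x₀` and `a`. Then the set of the `p ∈ ∂F` such that `f p` is a
non-conical limit point of `F` has Hausdorff dimension zero with respect to `m`. -/
theorem result (r : ℕ) (φ : MulAut (FreeGroup (Fin r)))
    (S : Set (FreeGroup (Fin r) ⋊[zpowersHom (MulAut (FreeGroup (Fin r))) φ] Multiplicative ℤ))
    (hSfin : S.Finite) (hS : Subgroup.closure S = ⊤) (hyp : IsHyperbolic S)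
    (f : Boundary (basis r) → Boundary S)
    (hf : IsCannonThurston (basis r) S SemidirectProduct.inl f)
    (X : Type) [MetricSpace X] [MulAction (FreeGroup (Fin r)) X] (hX : IsTree X)
    (hG : IsGeometric (FreeGroup (Fin r)) X) (x₀ : X) (a : ℝ) (ha : 1 < a)
    (m : MetricSpace (Boundary (basis r))) (hm : IsVisual (basis r) x₀ a m) :
    hausdorffDim m {p | IsLimitPoint S (Set.range SemidirectProduct.inl) (f p) ∧
      ¬ IsConical S (Set.range SemidirectProduct.inl) (f p)} = 0 := by
  have h := dim_nonconical hSfin hS hyp SemidirectProduct.inl SemidirectProduct.inl_injective f hf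
    hX hG x₀ a ha m hm
  apply le_antisymm _ zero_le
  rw [← h]
  exact @dimH_mono _ (@MetricSpace.toEMetricSpace _ m) _ _ (fun p hp => hp.2)

end Pool.Agent.Results.MP_eb6270_al.NonConicalPreimageDimZero
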